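import Pool.Agent.P8H51.EB.Stm
import Pool.Agent.P8H71.EA.Unit

/-!
# Project EB, package LOT2 (adapted from `Pool.Agent.P8H71.EA.lot` of helper71)
-/

set_option autoImplicit false

namespace Pool.Agent.P8H84.EB

open NumberField Finset Pool.Agent.H458.Sp Pool.Agent.P8H51.EA Pool.Agent.P8H51.EB Pool.Agent.P8H71.EA

/-- package LOT2 -/
theorem lot2 : S_LOT2 := by
  intro K _ _ θ t T Q R g ht hθ hQ hc hRt
  have ht0 : 0 < t := by linarith
  have hQ0 : Q ≠ 0 := by
    intro h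
    rw [h, Polynomial.coeff_zero] at hc
    exact hc rfl
  have hv0 : 0 ∈ Q.support := Polynomial.mem_support_iff.2 hc
  have hvW : Q.natDegree ∈ Q.support := Polynomial.natDegree_mem_support_of_nonzero hQ0
  -- at each embedding
  have key : ∀ φ : K →+* ℂ, max 1 ‖em φ θ‖ ^ Q.natDegree ≤
      2 * R ^ (Module.finrank ℚ K - 1) * ‖em φ (Q.eval θ)‖ := by
    intro φ
    have hR0 := R_nonneg hQ φ
    have hev : em φ (Q.eval θ) = Q.eval₂ (em φ) (em φ θ) := (Polynomial.eval₂_at_apply _ _).symm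
    have h2R : ∀ v ∈ Q.support, 2 * R ≤ ‖em φ (Q.coeff v)‖ * t ^ g := by
      intro v hv
      have h1 := R_le hQ φ v hv
      calc 2 * R ≤ 2 * (‖em φ (Q.coeff v)‖ * R ^ (Module.finrank ℚ K)) :=
            mul_le_mul_of_nonneg_left h1 (by norm_num)
        _ = ‖em φ (Q.coeff v)‖ * (2 * R ^ (Module.finrank ℚ K)) := by ring
        _ ≤ ‖em φ (Q.coeff v)‖ * t ^ g := mul_le_mul_of_nonneg_left hRt (norm_nonneg _)
    have htg : 0 < t ^ g := by positivity
    rcases hθ.2 φ with ⟨h, _⟩ | h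
    · -- `t ≤ ‖φ θ‖`
      have hx : 1 ≤ ‖em φ θ‖ := ht.le.trans h
      have hx0 : 0 < ‖em φ θ‖ := by linarith
      have h1 := top_bound hQ φ (em φ θ) hx hQ0
      have h2 := eval_split Q φ (em φ θ) _ hvW
      have h3 : ‖∑ w ∈ Q.support.erase Q.natDegree, em φ (Q.coeff w) * em φ θ ^ w‖ ≤
          ‖em φ (Q.coeff Q.natDegree)‖ * ‖em φ θ‖ ^ Q.natDegree / 2 := by
        have hrg : 0 < ‖em φ θ‖ ^ g := by positivity
        refine le_of_mul_le_mul_right (h1.trans ?_) hrg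
        have h3' : 2 * R ≤ ‖em φ (Q.coeff Q.natDegree)‖ * ‖em φ θ‖ ^ g :=
          (h2R _ hvW).trans (mul_le_mul_of_nonneg_left (pow_le_pow_left₀ ht0.le h g) (norm_nonneg _))
        have h4 := mul_le_mul_of_nonneg_right h3'
          (show (0 : ℝ) ≤ ‖em φ θ‖ ^ Q.natDegree by positivity)
        linarith
      have h5 := norm_sub_le (em φ (Q.eval θ))
        (∑ w ∈ Q.support.erase Q.natDegree, em φ (Q.coeff w) * em φ θ ^ w)
      rw [hev, h2, add_sub_cancel_right, norm_mul, norm_pow, ← h2, ← hev] at h5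
      have h6 : ‖em φ (Q.coeff Q.natDegree)‖ * ‖em φ θ‖ ^ Q.natDegree ≤
          2 * ‖em φ (Q.eval θ)‖ := by linarith
      have h7 := coeff_lower hQ φ _ hvW
      rw [max_eq_right hx]
      calc ‖em φ θ‖ ^ Q.natDegree = 1 * ‖em φ θ‖ ^ Q.natDegree := (one_mul _).symm
        _ ≤ ‖em φ (Q.coeff Q.natDegree)‖ * R ^ (Module.finrank ℚ K - 1) * ‖em φ θ‖ ^ Q.natDegree :=
            mul_le_mul_of_nonneg_right h7 (by positivity)
        _ = R ^ (Module.finrank ℚ K - 1) *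
              (‖em φ (Q.coeff Q.natDegree)‖ * ‖em φ θ‖ ^ Q.natDegree) := by ring
        _ ≤ R ^ (Module.finrank ℚ K - 1) * (2 * ‖em φ (Q.eval θ)‖) :=
            mul_le_mul_of_nonneg_left h6 (by positivity)
        _ = _ := by ring
    · -- `‖φ θ‖ ≤ 1 / t`
      have hx : ‖em φ θ‖ ≤ 1 := h.trans (inv_le_one_of_one_le₀ ht.le)
      have h1 := bot_bound hQ φ (em φ θ) hx 0 hv0 (fun w _ => Nat.zero_le w)
      have h2 := eval_split Q φ (em φ θ) _ hv0
      rw [pow_zero, one_mul] at h1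
      rw [pow_zero, mul_one] at h2
      have hrt : ‖em φ θ‖ ^ g * t ^ g ≤ 1 := by
        rw [← mul_pow]
        refine pow_le_one₀ (by positivity) ?_
        have := mul_le_mul_of_nonneg_right h ht0.le
        rwa [inv_mul_cancel₀ ht0.ne'] at this
      have h3 : ‖∑ w ∈ Q.support.erase 0, em φ (Q.coeff w) * em φ θ ^ w‖ ≤
          ‖em φ (Q.coeff 0)‖ / 2 := by
        refine le_of_mul_le_mul_right (le_trans (mul_le_mul_of_nonneg_right h1 htg.le) ?_) htg
        have h4 := h2R _ hv0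
        have h4' : R * ‖em φ θ‖ ^ g * t ^ g ≤ R := by
          calc R * ‖em φ θ‖ ^ g * t ^ g = R * (‖em φ θ‖ ^ g * t ^ g) := by ring
            _ ≤ R * 1 := mul_le_mul_of_nonneg_left hrt hR0
            _ = R := mul_one R
        linarith
      have h5 := norm_sub_le (em φ (Q.eval θ))
        (∑ w ∈ Q.support.erase 0, em φ (Q.coeff w) * em φ θ ^ w)
      rw [hev, h2, add_sub_cancel_right, ← h2, ← hev] at h5
      have h6 : ‖em φ (Q.coeff 0)‖ ≤ 2 * ‖em φ (Q.eval θ)‖ := by linarith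
      have h7 := coeff_lower hQ φ _ hv0
      rw [max_eq_left hx, one_pow]
      calc (1 : ℝ) ≤ ‖em φ (Q.coeff 0)‖ * R ^ (Module.finrank ℚ K - 1) := h7
        _ ≤ 2 * ‖em φ (Q.eval θ)‖ * R ^ (Module.finrank ℚ K - 1) :=
            mul_le_mul_of_nonneg_right h6 (by positivity)
        _ = _ := by ring
  have hcard : Fintype.card (K →+* ℂ) = Module.finrank ℚ K := NumberField.Embeddings.card K ℂ
  have hn1 : 0 < Module.finrank ℚ K := Module.finrank_pos
  obtain ⟨φ₀⟩ : Nonempty (K →+* ℂ) := Fintype.card_pos_iff.1 (by rw [hcard]; exact hn1)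
  have hR1 : 1 ≤ R := one_le_R hQ φ₀ _ hv0
  rw [absnorm_prod, ← Finset.prod_pow]
  calc ∏ φ : K →+* ℂ, max 1 ‖em φ θ‖ ^ Q.natDegree
      ≤ ∏ φ : K →+* ℂ, (2 * R ^ (Module.finrank ℚ K - 1) * ‖em φ (Q.eval θ)‖) :=
        Finset.prod_le_prod (fun _ _ => pow_nonneg (le_trans zero_le_one (le_max_left _ _)) _)
          fun φ _ => key φ
    _ = (2 * R ^ (Module.finrank ℚ K - 1)) ^ (Module.finrank ℚ K) *
        ∏ φ : K →+* ℂ, ‖em φ (Q.eval θ)‖ := by
        rw [Finset.prod_mul_distrib, Finset.prod_const, Finset.card_univ, hcard]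
    _ ≤ 2 ^ (Module.finrank ℚ K) * R ^ (Module.finrank ℚ K * Module.finrank ℚ K) *
        ∏ φ : K →+* ℂ, ‖em φ (Q.eval θ)‖ := by
        refine mul_le_mul_of_nonneg_right ?_ (Finset.prod_nonneg fun _ _ => norm_nonneg _)
        rw [mul_pow, ← pow_mul]
        refine mul_le_mul_of_nonneg_left ?_ (by positivity)
        exact pow_le_pow_right₀ hR1 (Nat.mul_le_mul_right _ (Nat.sub_le _ _))

end Pool.Agent.P8H84.EB
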